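import Mathlib
import Pool.Agent.Helper26.PairDefs
import Pool.Agent.Helper26.ChDefs
import Pool.Agent.Helper26.QuDefs
import Pool.Agent.Helper26.QuFinal

/-
Shelved hand-in of MP_d4938b_nt (replaced by FourQuadrics, limit of four per problem). Its claim file was:

Proves: Let k be a global field of characteristic 2, a in k, n>=3, and f a quartic form in n variables over k such that the hypersurface f=0 is smooth. Suppose that for every place v of k there is a nonzero x in k_v^n such that f(x)=y^2+yz+az^2 for some y, z in k_v. Then there is a nonzero x in k^n such that f(x)=y^2+yz+az^2 for some y, z in k.
Definitions: IsNormValue a e: e=y^2+yz+az^2 for some y, z in the field; IsSmoothHyp f: at each nonzero zero of f over the algebraic closure some partial derivative of f is nonzero; toCompletion V: the embedding of k into its completion at V (places = valuation rings V of k, V not k).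
Relation: Partial answer to Q1: the Hasse principle for the smooth, geometrically rational conic bundles X: y^2+yz+az^2=f(x)v^2 over P^(n-1) (dimension n>=3) with smooth quartic discriminant. Its values-of-f form is equivalent, since X has a point over x over a field L if and only if f(x)=y^2+yz+az^2 is soluble in L. New as far as we know for n=3,...,8; n>=9 also follows from the C_2 property of k. The case n=2 (Chatelet surfaces, where the Brauer-Manin condition is needed) is the separate hand-in ChateletChar2, on which the proof builds.
-/


set_option autoImplicit false

universe u

namespace Pool.Agent.Char2Old.QuarticBundlesChar2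

open Pool.Agent.Helper26 MvPolynomial

/-- The Hasse principle for the conic bundles `y ^ 2 + y * z + a * z ^ 2 = f(x)` over the projective
space of dimension `n - 1 ≥ 2` with smooth quartic discriminant `f` over a global field `k` of
characteristic two.  Here `k` is a finite extension of the rational function field over the field
with two elements, its places are the valuation rings `V ≠ ⊤` of `k`, and
`V.valuation.Completion` is the completion of `k` at `V`. -/
theorem result {k : Type u} [Field k] [Algebra (RatFunc (ZMod 2)) k]
    [FiniteDimensional (RatFunc (ZMod 2)) k] {n : ℕ} (hn : 3 ≤ n) (a : k)
    (f : MvPolynomial (Fin n) k) (hf : f.IsHomogeneous 4) (hsmooth : IsSmoothHyp f)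
    (hloc : ∀ V : ValuationSubring k, V ≠ ⊤ → ∃ x : Fin n → V.valuation.Completion,
      x ≠ 0 ∧ IsNormValue (toCompletion V a) (eval₂ (toCompletion V) x f)) :
    ∃ x : Fin n → k, x ≠ 0 ∧ IsNormValue a (eval x f) :=
  quartic_hp_smooth hn a f hf hsmooth hloc

end Pool.Agent.Char2Old.QuarticBundlesChar2
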