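import Mathlib
import Pool.Agent.Helper26.PairDefs
import Pool.Agent.Helper26.HPMv

set_option autoImplicit false

universe u

namespace Pool.Agent.Results.MP_d4938b_nt.TwoQuadricsChar2

open Pool.Agent.Helper26

/-- The Hasse principle for smooth complete intersections of two quadrics in a projective space of
dimension at least six over an arbitrary global field of characteristic two.  Here `k` is a finite
extension of the rational function field over the field with two elements, its places are the
valuation rings `V ≠ ⊤` of `k`, and `V.valuation.Completion` is the completion of `k` at `V`. -/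
theorem result {n : ℕ} (hn : 7 ≤ n) {k : Type u} [Field k] [Algebra (RatFunc (ZMod 2)) k]
    [FiniteDimensional (RatFunc (ZMod 2)) k] (Q₁ Q₂ : MvPolynomial (Fin n) k)
    (h₁ : Q₁.IsHomogeneous 2) (h₂ : Q₂.IsHomogeneous 2) (hsmooth : IsSmoothPair Q₁ Q₂)
    (hloc : ∀ V : ValuationSubring k, V ≠ ⊤ → HasNontrivialZero (toCompletion V) Q₁ Q₂) :
    HasNontrivialZero (RingHom.id k) Q₁ Q₂ :=
  hp_mv hn Q₁ Q₂ h₁ h₂ hsmooth hloc

end Pool.Agent.Results.MP_d4938b_nt.TwoQuadricsChar2
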